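import Mathlib

set_option autoImplicit false

open Finset

/-!
The rounding lemmas up to `real_case` are helper137's, from the hand-in `IntegerRatio`.
-/

namespace Pool.Agent.Results.MP_ee21b2_co.FewPerLine

noncomputable section

/-! ### Integral rounding of one row -/

/-- the number of non-integral entries of a vector -/
def nonint {X : Type} [Fintype X] (k : X → ℝ) : ℕ :=
  by classical exact (univ.filter (fun v => ¬ ∃ z : ℤ, k v = z)).card

lemma round_row {X : Type} [Fintype X] (w : X → ℝ) (hw : ∀ v, 0 ≤ w v) (A s : ℕ) :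
    ∀ (N : ℕ) (k : X → ℝ), nonint k ≤ N → (∀ v, 0 ≤ k v) → (∀ v, k v ≤ A) →
      (∑ v, k v ≤ s) → ∃ k' : X → ℝ, (∀ v, ∃ z : ℤ, k' v = z) ∧ (∀ v, 0 ≤ k' v) ∧
        (∀ v, k' v ≤ A) ∧ (∑ v, k' v ≤ s) ∧ (∀ v, k v = 0 → k' v = 0) ∧
        ∑ v, k v * w v ≤ ∑ v, k' v * w v := by
  classical
  intro N
  induction N with
  | zero =>
    intro k hN h0 hA hs
    refine ⟨k, ?_, h0, hA, hs, fun v hv => hv, le_refl _⟩
    intro v
    by_contra hv
    have : v ∈ univ.filter (fun v => ¬ ∃ z : ℤ, k v = z) := by simpa using hv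
    have hc : 0 < nonint k := by
      unfold nonint
      exact Finset.card_pos.mpr ⟨v, by convert this⟩
    omega
  | succ N ih =>
    intro k hN h0 hA hs
    by_cases hall : ∀ v, ∃ z : ℤ, k v = z
    · exact ⟨k, hall, h0, hA, hs, fun v hv => hv, le_refl _⟩
    push Not at hall
    obtain ⟨i, hi⟩ := hall
    by_cases hj : ∃ j, j ≠ i ∧ ∀ z : ℤ, k j ≠ z
    · -- two non-integral entries; name them so that w j ≤ w i
      obtain ⟨j, hji, hj⟩ := hj
      have key : ∀ i j : X, j ≠ i → (∀ z : ℤ, k i ≠ z) → (∀ z : ℤ, k j ≠ z) → w j ≤ w i →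
          ∃ k' : X → ℝ, (∀ v, ∃ z : ℤ, k' v = z) ∧ (∀ v, 0 ≤ k' v) ∧
        (∀ v, k' v ≤ A) ∧ (∑ v, k' v ≤ s) ∧ (∀ v, k v = 0 → k' v = 0) ∧
        ∑ v, k v * w v ≤ ∑ v, k' v * w v := by
        intro i j hji hi hj hwij
        set δ : ℝ := min (1 - Int.fract (k i)) (Int.fract (k j)) with hδ
        have hfi : 0 < Int.fract (k i) := by
          rcases (Int.fract_nonneg (k i)).lt_or_eq with h | h
          · exact h
          · exact absurd (by have := Int.floor_add_fract (k i); linarith) (hi ⌊k i⌋)
        have hfj : 0 < Int.fract (k j) := by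
          rcases (Int.fract_nonneg (k j)).lt_or_eq with h | h
          · exact h
          · exact absurd (by have := Int.floor_add_fract (k j); linarith) (hj ⌊k j⌋)
        have hfi1 := Int.fract_lt_one (k i)
        have hfj1 := Int.fract_lt_one (k j)
        have hδ0 : 0 < δ := lt_min (by linarith) hfj
        have hδi : δ ≤ 1 - Int.fract (k i) := min_le_left _ _
        have hδj : δ ≤ Int.fract (k j) := min_le_right _ _
        set k₁ : X → ℝ := fun v => k v + (if v = i then δ else 0) - (if v = j then δ else 0)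
          with hk₁
        have hsum : ∑ v, k₁ v = ∑ v, k v := by
          simp only [hk₁, Finset.sum_sub_distrib, Finset.sum_add_distrib, Finset.sum_ite_eq',
            Finset.mem_univ, if_true]
          ring
        have hk1i : k₁ i = k i + δ := by simp [hk₁, hji.symm]
        have hk1j : k₁ j = k j - δ := by simp [hk₁, hji]
        have hk1o : ∀ v, v ≠ i → v ≠ j → k₁ v = k v := by
          intro v h1 h2; simp [hk₁, h1, h2]
        have hci : k i + (1 - Int.fract (k i)) = ((⌊k i⌋ + 1 : ℤ) : ℝ) := by
          have := Int.floor_add_fract (k i); push_cast; linarith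
        have hcj : k j - Int.fract (k j) = ((⌊k j⌋ : ℤ) : ℝ) := by
          have := Int.floor_add_fract (k j); linarith
        have hceil : ((⌊k i⌋ + 1 : ℤ) : ℝ) ≤ A := by
          have h1 : (⌊k i⌋ : ℝ) < A := lt_of_lt_of_le
            (by have := Int.floor_add_fract (k i); linarith) (hA i)
          have h2 : ⌊k i⌋ < (A : ℤ) := by exact_mod_cast h1
          have h3 : ⌊k i⌋ + 1 ≤ (A : ℤ) := h2
          exact_mod_cast h3
        have hfl0 : (0 : ℝ) ≤ ((⌊k j⌋ : ℤ) : ℝ) := by
          exact_mod_cast Int.floor_nonneg.mpr (h0 j)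
        -- one of the two became integral
        have hlt : nonint k₁ < nonint k := by
          unfold nonint
          apply Finset.card_lt_card
          refine ⟨?_, ?_⟩
          · intro v hv
            simp only [Finset.mem_filter, Finset.mem_univ, true_and] at hv ⊢
            by_cases hvi : v = i
            · subst hvi; rintro ⟨z, hz⟩; exact hi z hz
            by_cases hvj : v = j
            · subst hvj; rintro ⟨z, hz⟩; exact hj z hz
            rwa [hk1o v hvi hvj] at hv
          · intro hsub
            rcases min_choice (1 - Int.fract (k i)) (Int.fract (k j)) with h | h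
            · have hmem : i ∈ univ.filter (fun v => ¬ ∃ z : ℤ, k v = z) := by
                simp only [Finset.mem_filter, Finset.mem_univ, true_and]
                rintro ⟨z, hz⟩; exact hi z hz
              have := hsub hmem
              simp only [Finset.mem_filter, Finset.mem_univ, true_and] at this
              exact this ⟨⌊k i⌋ + 1, by rw [hk1i, hδ, h, hci]⟩
            · have hmem : j ∈ univ.filter (fun v => ¬ ∃ z : ℤ, k v = z) := by
                simp only [Finset.mem_filter, Finset.mem_univ, true_and]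
                rintro ⟨z, hz⟩; exact hj z hz
              have := hsub hmem
              simp only [Finset.mem_filter, Finset.mem_univ, true_and] at this
              exact this ⟨⌊k j⌋, by rw [hk1j, hδ, h, hcj]⟩
        have h01 : ∀ v, 0 ≤ k₁ v := by
          intro v
          by_cases hvi : v = i
          · subst hvi; rw [hk1i]; linarith [h0 v]
          by_cases hvj : v = j
          · subst hvj; rw [hk1j]; linarith
          rw [hk1o v hvi hvj]; exact h0 v
        have hA1 : ∀ v, k₁ v ≤ A := by
          intro v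
          by_cases hvi : v = i
          · subst hvi; rw [hk1i]; linarith
          by_cases hvj : v = j
          · subst hvj; rw [hk1j]; linarith [hA v]
          rw [hk1o v hvi hvj]; exact hA v
        obtain ⟨k', h1, h2, h3, h4, h5, h6⟩ := ih k₁ (by omega) h01 hA1 (by rw [hsum]; exact hs)
        refine ⟨k', h1, h2, h3, h4, ?_, ?_⟩
        · intro v hv
          by_cases hvi : v = i
          · subst hvi; exact absurd (by rw [hv]; simp) (hi 0)
          by_cases hvj : v = j
          · subst hvj; exact absurd (by rw [hv]; simp) (hj 0)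
          exact h5 v (by rw [hk1o v hvi hvj]; exact hv)
        · refine le_trans ?_ h6
          have : ∑ v, k₁ v * w v = ∑ v, k v * w v + δ * w i - δ * w j := by
            have e : ∀ v, k₁ v * w v = k v * w v + (if v = i then δ * w v else 0)
                - (if v = j then δ * w v else 0) := by
              intro v
              simp only [hk₁]
              split_ifs <;> ring
            rw [Finset.sum_congr rfl (fun v _ => e v)]
            simp only [Finset.sum_sub_distrib, Finset.sum_add_distrib, Finset.sum_ite_eq',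
              Finset.mem_univ, if_true]
          rw [this]
          nlinarith [mul_le_mul_of_nonneg_left hwij hδ0.le]
      rcases le_total (w j) (w i) with h | h
      · exact key i j hji hi hj h
      · exact key j i hji.symm hj hi h
    · -- exactly one non-integral entry: round up
      push Not at hj
      have hfi : 0 < Int.fract (k i) := by
        rcases (Int.fract_nonneg (k i)).lt_or_eq with h | h
        · exact h
        · exact absurd (by have := Int.floor_add_fract (k i); linarith) (hi ⌊k i⌋)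
      have hfi1 := Int.fract_lt_one (k i)
      have hflo := Int.floor_add_fract (k i)
      set k₁ : X → ℝ := fun v => if v = i then ((⌊k i⌋ + 1 : ℤ) : ℝ) else k v with hk₁
      have hint : ∀ v, ∃ z : ℤ, k₁ v = z := by
        intro v
        by_cases hvi : v = i
        · exact ⟨⌊k i⌋ + 1, by simp [hk₁, hvi]⟩
        · obtain ⟨z, hz⟩ := hj v hvi
          exact ⟨z, by simp [hk₁, hvi, hz]⟩
      have hge : ∀ v, k v ≤ k₁ v := by
        intro v
        by_cases hvi : v = i
        · subst hvi; simp only [hk₁, if_true]; push_cast; linarith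
        · simp [hk₁, hvi]
      refine ⟨k₁, hint, fun v => (h0 v).trans (hge v), ?_, ?_, ?_, ?_⟩
      · intro v
        by_cases hvi : v = i
        · subst hvi
          simp only [hk₁, if_true]
          have h1 : (⌊k v⌋ : ℝ) < A := lt_of_lt_of_le (by linarith) (hA v)
          have h2 : ⌊k v⌋ < (A : ℤ) := by exact_mod_cast h1
          have h3 : ⌊k v⌋ + 1 ≤ (A : ℤ) := h2
          exact_mod_cast h3
        · simp only [hk₁, hvi, if_false]; exact hA v
      · -- the sum: integral and < s + 1
        choose z hz using hint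
        have h1 : ∑ v, k₁ v = ∑ v, k v + (1 - Int.fract (k i)) := by
          have e : ∀ v, k₁ v = k v + (if v = i then (1 - Int.fract (k i)) else 0) := by
            intro v
            by_cases hvi : v = i
            · subst hvi; simp only [hk₁, if_true]; push_cast; linarith
            · simp [hk₁, hvi]
          rw [Finset.sum_congr rfl (fun v _ => e v)]
          simp [Finset.sum_add_distrib]
        have h2 : ∑ v, k₁ v = ((∑ v, z v : ℤ) : ℝ) := by
          push_cast
          exact Finset.sum_congr rfl fun v _ => hz v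
        have h3 : ((∑ v, z v : ℤ) : ℝ) < (((s : ℤ) + 1 : ℤ) : ℝ) := by
          rw [← h2, h1]; push_cast; linarith
        have h4 : (∑ v, z v : ℤ) < (s : ℤ) + 1 := by exact_mod_cast h3
        have h5 : (∑ v, z v : ℤ) ≤ (s : ℤ) := by omega
        rw [h2]
        exact_mod_cast h5
      · intro v hv
        by_cases hvi : v = i
        · subst hvi; exact absurd (by rw [hv]; simp) (hi 0)
        · simp [hk₁, hvi, hv]
      · exact Finset.sum_le_sum fun v _ => mul_le_mul_of_nonneg_right (hge v) (hw v)

/-! ### The quadratic form and rounding of all rows -/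

/-- `∑ k u v * k v u`. -/
def quad {X : Type} [Fintype X] (k : X → X → ℝ) : ℝ := ∑ u, ∑ v, k u v * k v u

lemma quad_update {X : Type} [Fintype X] [DecidableEq X] (k : X → X → ℝ) (x : X) (r : X → ℝ)
    (h0 : k x x = 0) (hr : r x = 0) (h : ∑ v, k x v * k v x ≤ ∑ v, r v * k v x) :
    quad k ≤ quad (Function.update k x r) := by
  set E : X → X → ℝ := fun u v => if u = x then r v - k x v else 0 with hE
  have hup : ∀ u v, Function.update k x r u v = k u v + E u v := by
    intro u v
    by_cases hu : u = x
    · subst hu; simp [hE]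
    · simp [hE, hu]
  have hEE : ∀ u v, E u v * E v u = 0 := by
    intro u v
    by_cases hu : u = x
    · by_cases hv : v = x
      · subst hu; subst hv; simp [hE, h0, hr]
      · simp [hE, hv]
    · simp [hE, hu]
  have h1 : quad (Function.update k x r) = quad k + ∑ u, ∑ v, E u v * k v u
      + ∑ u, ∑ v, k u v * E v u := by
    unfold quad
    rw [← Finset.sum_add_distrib, ← Finset.sum_add_distrib]
    refine Finset.sum_congr rfl fun u _ => ?_
    rw [← Finset.sum_add_distrib, ← Finset.sum_add_distrib]
    refine Finset.sum_congr rfl fun v _ => ?_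
    rw [hup, hup]
    have := hEE u v
    nlinarith [this]
  have h2 : ∑ u, ∑ v, k u v * E v u = ∑ u, ∑ v, E u v * k v u := by
    rw [Finset.sum_comm]
    exact Finset.sum_congr rfl fun u _ => Finset.sum_congr rfl fun v _ => mul_comm _ _
  have h3 : ∑ u, ∑ v, E u v * k v u = ∑ v, (r v - k x v) * k v x := by
    rw [Finset.sum_eq_single x]
    · simp [hE]
    · intro u _ hu
      simp [hE, hu]
    · simp
  have h4 : ∑ v, (r v - k x v) * k v x = ∑ v, r v * k v x - ∑ v, k x v * k v x := by
    rw [← Finset.sum_sub_distrib]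
    exact Finset.sum_congr rfl fun v _ => by ring
  rw [h1, h2, h3, h4]
  linarith

lemma round_all {X : Type} [Fintype X] [DecidableEq X] (A : ℕ) (s : X → ℕ) (R : Finset X) :
    ∀ (k : X → X → ℝ), (∀ u v, 0 ≤ k u v) → (∀ u v, k u v ≤ A) → (∀ u, k u u = 0) →
      (∀ u, ∑ v, k u v ≤ s u) →
      ∃ k' : X → X → ℝ, (∀ u v, 0 ≤ k' u v) ∧ (∀ u v, k' u v ≤ A) ∧ (∀ u, k' u u = 0) ∧
        (∀ u, ∑ v, k' u v ≤ s u) ∧ (∀ u ∈ R, ∀ v, ∃ z : ℤ, k' u v = z) ∧ quad k ≤ quad k' := by
  induction R using Finset.induction_on with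
  | empty =>
    intro k h0 hA hd hs
    exact ⟨k, h0, hA, hd, hs, by simp, le_refl _⟩
  | insert x R hx ih =>
    intro k h0 hA hd hs
    obtain ⟨k₁, a0, aA, ad, as, aR, aT⟩ := ih k h0 hA hd hs
    obtain ⟨r, r1, r2, r3, r4, r5, r6⟩ := round_row (fun v => k₁ v x) (fun v => a0 v x) A (s x)
      (nonint (k₁ x)) (k₁ x) (le_refl _) (a0 x) (aA x) (as x)
    refine ⟨Function.update k₁ x r, ?_, ?_, ?_, ?_, ?_, ?_⟩
    · intro u v
      by_cases hu : u = x
      · subst hu; simpa using r2 v
      · simpa [hu] using a0 u v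
    · intro u v
      by_cases hu : u = x
      · subst hu; simpa using r3 v
      · simpa [hu] using aA u v
    · intro u
      by_cases hu : u = x
      · subst hu; simpa using r5 u (ad u)
      · simpa [hu] using ad u
    · intro u
      by_cases hu : u = x
      · subst hu; simpa using r4
      · simpa [hu] using as u
    · intro u hu v
      by_cases hux : u = x
      · subst hux; simpa using r1 v
      · have : u ∈ R := by
          rcases Finset.mem_insert.mp hu with h | h
          · exact absurd h hux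
          · exact h
        simpa [hux] using aR u this v
    · exact aT.trans (quad_update k₁ x r (ad x) (r5 x (ad x)) r6)

/-! ### The integral case -/

lemma pair_cost (A p q : ℤ) (hp : 1 ≤ p) (hpA : p ≤ A) (hq : 0 ≤ q) (hqA : q < A) :
    A ≤ p * (A - q) + q * (A - p) := by
  rcases hq.lt_or_eq with h | h
  · nlinarith [mul_nonneg (by linarith : (0:ℤ) ≤ p - 1 + 1) (by linarith : (0:ℤ) ≤ A - q - 1),
      mul_nonneg (by linarith : (0:ℤ) ≤ q - 1) (by linarith : (0:ℤ) ≤ A - p)]
  · subst h
    nlinarith

lemma int_case {X : Type} [Fintype X] [DecidableEq X] (A : ℤ) (k : X → X → ℤ)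
    (h0 : ∀ u v, 0 ≤ k u v) (hA : ∀ u v, k u v ≤ A) (hd : ∀ u, k u u = 0) (N : ℤ)
    (hN : Odd N) (hs : ∑ u, ∑ v, k u v ≤ N) (hApos : 0 ≤ A) :
    ∑ u, ∑ v, k u v * k v u ≤ A * (N - 1) := by
  have hdef : ∑ u, ∑ v, k u v * (A - k v u) = A * ∑ u, ∑ v, k u v
      - ∑ u, ∑ v, k u v * k v u := by
    rw [Finset.mul_sum, ← Finset.sum_sub_distrib]
    refine Finset.sum_congr rfl fun u _ => ?_
    rw [Finset.mul_sum, ← Finset.sum_sub_distrib]
    exact Finset.sum_congr rfl fun v _ => by ring
  by_cases hbad : ∃ u v, 1 ≤ k u v ∧ k v u < A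
  · obtain ⟨u, v, huv, hvu⟩ := hbad
    have hne : u ≠ v := by
      rintro rfl; rw [hd] at huv; omega
    have hterm : ∀ u v, 0 ≤ k u v * (A - k v u) := fun u v =>
      mul_nonneg (h0 u v) (by linarith [hA v u])
    have hcost : A ≤ ∑ u, ∑ v, k u v * (A - k v u) := by
      have h1 : k u v * (A - k v u) ≤ ∑ v', k u v' * (A - k v' u) :=
        Finset.single_le_sum (f := fun v' => k u v' * (A - k v' u)) (fun v' _ => hterm u v')
          (Finset.mem_univ v)
      have h2 : k v u * (A - k u v) ≤ ∑ v', k v v' * (A - k v' v) :=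
        Finset.single_le_sum (f := fun v' => k v v' * (A - k v' v)) (fun v' _ => hterm v v')
          (Finset.mem_univ u)
      have h3 : (∑ v', k u v' * (A - k v' u)) + ∑ v', k v v' * (A - k v' v)
          ≤ ∑ u, ∑ v, k u v * (A - k v u) := by
        have := Finset.add_le_sum (f := fun u => ∑ v', k u v' * (A - k v' u)) (s := univ)
          (fun i _ => Finset.sum_nonneg fun v' _ => hterm i v') (Finset.mem_univ u)
          (Finset.mem_univ v) hne
        exact this
      have h4 := pair_cost A (k u v) (k v u) huv (hA u v) (h0 v u) hvu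
      linarith
    nlinarith [mul_le_mul_of_nonneg_left hs hApos]
  · push Not at hbad
    have hval : ∀ u v, k u v = 0 ∨ (k u v = A ∧ k v u = A) := by
      intro u v
      rcases (h0 u v).lt_or_eq with h | h
      · right
        have h1 : k v u = A := le_antisymm (hA v u) (hbad u v h)
        have hA1 : 1 ≤ A := le_trans h (hA u v)
        exact ⟨le_antisymm (hA u v) (hbad v u (by rw [h1]; exact hA1)), h1⟩
      · left; exact h.symm
    have hsym : ∀ u v, k u v = k v u := by
      intro u v
      rcases hval u v with h | ⟨h1, h2⟩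
      · rcases hval v u with h' | ⟨h1', h2'⟩
        · rw [h, h']
        · rw [h2', h1']
      · rw [h1, h2]
    have hzero : ∑ u, ∑ v, k u v * (A - k v u) = 0 := by
      refine Finset.sum_eq_zero fun u _ => Finset.sum_eq_zero fun v _ => ?_
      rcases hval u v with h | ⟨_, h2⟩
      · rw [h]; ring
      · rw [h2]; ring
    have heven : Even (∑ u, ∑ v, k u v) := by
      have h2 : ((∑ u, ∑ v, k u v : ℤ) : ZMod 2) = 0 := by
        push_cast
        rw [← Finset.sum_product']
        refine Finset.sum_involution (fun p _ => (p.2, p.1)) ?_ ?_ ?_ ?_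
        · rintro ⟨u, v⟩ _
          simp only
          rw [hsym v u]
          have : (2 : ZMod 2) = 0 := by decide
          linear_combination ((k u v : ℤ) : ZMod 2) * this
        · rintro ⟨u, v⟩ _ hne heq
          simp only [Prod.mk.injEq] at heq
          apply hne
          simp only
          rw [heq.1, hd]
          simp
        · intro p _; simp
        · intro p _; simp
      have := (ZMod.intCast_zmod_eq_zero_iff_dvd _ 2).mp h2
      exact (even_iff_two_dvd).mpr (by exact_mod_cast this)
    have hlt : ∑ u, ∑ v, k u v ≤ N - 1 := by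
      rcases hs.lt_or_eq with h | h
      · omega
      · rw [h] at heven
        exact absurd heven (by simpa using hN)
    have : ∑ u, ∑ v, k u v * k v u = A * ∑ u, ∑ v, k u v := by linarith
    rw [this]
    exact mul_le_mul_of_nonneg_left hlt hApos

/-- the real relaxation -/
lemma real_case {X : Type} [Fintype X] [DecidableEq X] (A : ℕ) (s : X → ℕ) (k : X → X → ℝ)
    (h0 : ∀ u v, 0 ≤ k u v) (hA : ∀ u v, k u v ≤ A) (hd : ∀ u, k u u = 0)
    (hs : ∀ u, ∑ v, k u v ≤ s u) (hodd : Odd (∑ u, s u)) :
    quad k ≤ A * ((∑ u, s u : ℕ) - 1 : ℝ) := by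
  obtain ⟨k', a0, aA, ad, as, aR, aT⟩ := round_all A s univ k h0 hA hd hs
  have aR' : ∀ u v, ∃ z : ℤ, k' u v = z := fun u v => aR u (Finset.mem_univ u) v
  choose z hz using aR'
  have b0 : ∀ u v, 0 ≤ z u v := fun u v => by
    have := a0 u v; rw [hz] at this; exact_mod_cast this
  have bA : ∀ u v, z u v ≤ (A : ℤ) := fun u v => by
    have := aA u v; rw [hz] at this; exact_mod_cast this
  have bd : ∀ u, z u u = 0 := fun u => by
    have := ad u; rw [hz] at this; exact_mod_cast this
  have bs : ∑ u, ∑ v, z u v ≤ ((∑ u, s u : ℕ) : ℤ) := by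
    have : ∀ u, ∑ v, z u v ≤ (s u : ℤ) := by
      intro u
      have h := as u
      simp only [hz] at h
      exact_mod_cast h
    push_cast
    exact Finset.sum_le_sum fun u _ => this u
  have hN : Odd (((∑ u, s u : ℕ) : ℤ)) := by exact_mod_cast hodd
  have hfin := int_case (A : ℤ) z b0 bA bd _ hN bs (by positivity)
  refine aT.trans ?_
  have e : quad k' = ((∑ u, ∑ v, z u v * z v u : ℤ) : ℝ) := by
    unfold quad
    push_cast
    exact Finset.sum_congr rfl fun u _ => Finset.sum_congr rfl fun v _ => by rw [hz, hz]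
  rw [e]
  have : ((∑ u, ∑ v, z u v * z v u : ℤ) : ℝ) ≤ (((A : ℤ) * (((∑ u, s u : ℕ) : ℤ) - 1) : ℤ) : ℝ) := by
    exact_mod_cast hfin
  push_cast at this ⊢
  exact this

/-! ### From matrices to the quadratic form -/

/-- The main estimate: at most `A` positions in every row, column sums at most `c`. -/
lemma main {X Y : Type} [Fintype X] [DecidableEq X] [Fintype Y] [DecidableEq Y]
    (M : X → Y → ℝ) (h0 : ∀ x y, 0 ≤ M x y) (c : ℝ) (A : ℕ)
    (hcol : ∀ y, ∑ x, M x y ≤ c)
    (S : Finset (X × Y)) (hS : ∀ p ∈ S, M p.1 p.2 = 0) (hodd : Odd S.card)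
    (hrow : ∀ x, (univ.filter (fun y => (x, y) ∈ S)).card ≤ A) :
    ∑ p ∈ S, ∑ q ∈ S, M p.1 q.2 * M q.1 p.2 ≤ c ^ 2 * (A * ((S.card : ℝ) - 1)) := by
  have hSpos : 0 < S.card := hodd.pos
  have hBS : (0:ℝ) ≤ (S.card : ℝ) - 1 := by
    have : (1:ℝ) ≤ ((S.card : ℕ) : ℝ) := by exact_mod_cast hSpos
    linarith
  rcases le_or_gt c 0 with hc | hc
  · -- everything vanishes
    have hM : ∀ x y, M x y = 0 := by
      intro x y
      have h1 : M x y ≤ ∑ x', M x' y := Finset.single_le_sum (f := fun x' => M x' y)
        (fun x' _ => h0 x' y) (Finset.mem_univ x)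
      have h2 := hcol y
      exact le_antisymm (by linarith) (h0 x y)
    have : ∑ p ∈ S, ∑ q ∈ S, M p.1 q.2 * M q.1 p.2 = 0 :=
      Finset.sum_eq_zero fun p _ => Finset.sum_eq_zero fun q _ => by rw [hM]; ring
    rw [this]
    positivity
  -- indicator
  set χ : X → Y → ℝ := fun x y => if (x, y) ∈ S then 1 else 0 with hχ
  have hχ0 : ∀ x y, 0 ≤ χ x y := fun x y => by simp only [hχ]; split_ifs <;> norm_num
  set k : X → X → ℝ := fun x x' => (∑ y, χ x y * M x' y) / c with hk
  set s : X → ℕ := fun x => (univ.filter (fun y => (x, y) ∈ S)).card with hs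
  have hst : ∑ x, s x = S.card := by
    have h1 : S.card = ∑ p : X × Y, if p ∈ S then 1 else 0 := by simp
    rw [h1, Fintype.sum_prod_type]
    refine Finset.sum_congr rfl fun x _ => ?_
    simp only [hs]
    rw [Finset.card_filter]
  have hsum : ∑ p ∈ S, ∑ q ∈ S, M p.1 q.2 * M q.1 p.2 = c ^ 2 * quad k := by
    have hconv : ∀ f : X × Y → ℝ, ∑ p ∈ S, f p = ∑ x, ∑ y, χ x y * f (x, y) := by
      intro f
      rw [← Fintype.sum_prod_type' (f := fun x y => χ x y * f (x, y))]
      rw [← Finset.sum_filter_add_sum_filter_not univ (fun p : X × Y => p ∈ S)]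
      have e1 : (univ.filter fun p : X × Y => p ∈ S) = S := by ext p; simp
      have e2 : ∑ p ∈ univ.filter (fun p : X × Y => ¬ p ∈ S), χ p.1 p.2 * f (p.1, p.2) = 0 := by
        refine Finset.sum_eq_zero fun p hp => ?_
        have : p ∉ S := by simpa using hp
        simp [hχ, this]
      rw [e2, add_zero, e1]
      refine Finset.sum_congr rfl fun p hp => ?_
      simp [hχ, hp]
    rw [hconv]
    simp_rw [hconv]
    unfold quad
    rw [Finset.mul_sum]
    refine Finset.sum_congr rfl fun x _ => ?_
    rw [Finset.mul_sum]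
    have e : ∀ x', c ^ 2 * (k x x' * k x' x) = ∑ y, ∑ y', χ x y * (χ x' y' * (M x y' * M x' y)) := by
      intro x'
      simp only [hk]
      have hcne : c ≠ 0 := hc.ne'
      rw [show c ^ 2 * ((∑ y, χ x y * M x' y) / c * ((∑ y, χ x' y * M x y) / c))
        = (∑ y, χ x y * M x' y) * (∑ y, χ x' y * M x y) by field_simp]
      rw [Finset.sum_mul_sum]
      refine Finset.sum_congr rfl fun y _ => Finset.sum_congr rfl fun y' _ => by ring
    simp_rw [e]
    simp_rw [Finset.mul_sum]
    rw [Finset.sum_comm]
  have hk0 : ∀ u v, 0 ≤ k u v := fun u v => by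
    simp only [hk]
    exact div_nonneg (Finset.sum_nonneg fun y _ => mul_nonneg (hχ0 _ _) (h0 _ _)) hc.le
  have hkd : ∀ u, k u u = 0 := fun u => by
    simp only [hk]
    have : ∑ y, χ u y * M u y = 0 := by
      refine Finset.sum_eq_zero fun y _ => ?_
      by_cases h : (u, y) ∈ S
      · rw [hS (u, y) h, mul_zero]
      · simp [hχ, h]
    rw [this, zero_div]
  have hks : ∀ u, ∑ v, k u v ≤ s u := fun u => by
    simp only [hk]
    rw [← Finset.sum_div, div_le_iff₀ hc, Finset.sum_comm]
    have h1 : ∀ y, ∑ v, χ u y * M v y ≤ χ u y * c := fun y => by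
      rw [← Finset.mul_sum]
      exact mul_le_mul_of_nonneg_left (hcol y) (hχ0 _ _)
    refine le_trans (Finset.sum_le_sum fun y _ => h1 y) ?_
    rw [← Finset.sum_mul]
    have h2 : ∑ y, χ u y = ((univ.filter (fun y => (u, y) ∈ S)).card : ℝ) := by
      simp [hχ]
    rw [h2]
  have hkA : ∀ u v, k u v ≤ A := fun u v => by
    have h1 : k u v ≤ ∑ v', k u v' := Finset.single_le_sum (f := fun v' => k u v')
      (fun v' _ => hk0 u v') (Finset.mem_univ v)
    have h2 : (s u : ℝ) ≤ A := by exact_mod_cast hrow u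
    linarith [hks u]
  have hoddt : Odd (∑ u, s u) := by
    rw [hst]; exact hodd
  have := real_case A s k hk0 hkA hkd hks hoddt
  rw [hsum]
  refine mul_le_mul_of_nonneg_left ?_ (by positivity)
  rw [hst] at this
  exact this

/-- The transposed version. -/
lemma main' {X Y : Type} [Fintype X] [DecidableEq X] [Fintype Y] [DecidableEq Y]
    (M : X → Y → ℝ) (h0 : ∀ x y, 0 ≤ M x y) (c : ℝ) (A : ℕ)
    (hrow : ∀ x, ∑ y, M x y ≤ c)
    (S : Finset (X × Y)) (hS : ∀ p ∈ S, M p.1 p.2 = 0) (hodd : Odd S.card)
    (hcol : ∀ y, (univ.filter (fun x => (x, y) ∈ S)).card ≤ A) :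
    ∑ p ∈ S, ∑ q ∈ S, M p.1 q.2 * M q.1 p.2 ≤ c ^ 2 * (A * ((S.card : ℝ) - 1)) := by
  classical
  set S' : Finset (Y × X) := S.map (Equiv.prodComm X Y).toEmbedding with hS'
  have hcard : S'.card = S.card := by simp [hS']
  have hmem : ∀ x y, (y, x) ∈ S' ↔ (x, y) ∈ S := by
    intro x y
    simp only [hS', Finset.mem_map_equiv]
    rfl
  have h := main (fun y x => M x y) (fun y x => h0 x y) c A hrow S' (by
    intro p hp
    obtain ⟨y, x⟩ := p
    exact hS _ ((hmem x y).1 hp)) (by rw [hcard]; exact hodd) (by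
    intro y
    refine le_trans (le_of_eq ?_) (hcol y)
    congr 1
    ext x
    simp [hmem])
  rw [hcard] at h
  refine le_trans (le_of_eq ?_) h
  simp only [hS', Finset.sum_map]
  refine Finset.sum_congr rfl fun p _ => Finset.sum_congr rfl fun q _ => ?_
  simp [mul_comm]

/-- **Partial answer to Q1.** Let `M` be an `n × k` non-negative real matrix with all row sums at
most `a` and all column sums at most `b`, and let `S` be a set of an odd number `t` of positions
where `M` vanishes, with at most `r` positions of `S` in every row and at most `c` positions of `S`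
in every column. Then the double sum is at most `(t - 1) r b ^ 2` and at most `(t - 1) c a ^ 2`;
hence it is at most `(t - 1) a b` as soon as `r b ≤ a` or `c a ≤ b`. -/
theorem result (n k : ℕ) (M : Matrix (Fin n) (Fin k) ℝ) (h0 : ∀ x y, 0 ≤ M x y) (a b : ℝ)
    (hrow : ∀ x, ∑ y, M x y ≤ a) (hcol : ∀ y, ∑ x, M x y ≤ b) (ha : 0 ≤ a) (hb : 0 ≤ b)
    (S : Finset (Fin n × Fin k)) (hS : ∀ p ∈ S, M p.1 p.2 = 0) (hodd : Odd S.card) (r c : ℕ)
    (hr : ∀ x, (S.filter (fun p => p.1 = x)).card ≤ r)
    (hc : ∀ y, (S.filter (fun p => p.2 = y)).card ≤ c) :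
    ∑ p ∈ S, ∑ q ∈ S, M p.1 q.2 * M q.1 p.2 ≤ ((S.card : ℝ) - 1) * (r * b ^ 2) ∧
    ∑ p ∈ S, ∑ q ∈ S, M p.1 q.2 * M q.1 p.2 ≤ ((S.card : ℝ) - 1) * (c * a ^ 2) ∧
    ((r * b ≤ a ∨ c * a ≤ b) →
      ∑ p ∈ S, ∑ q ∈ S, M p.1 q.2 * M q.1 p.2 ≤ ((S.card : ℝ) - 1) * (a * b)) := by
  have hS1 : (0:ℝ) ≤ (S.card : ℝ) - 1 := by
    have : (1:ℝ) ≤ ((S.card : ℕ) : ℝ) := by exact_mod_cast hodd.pos
    linarith
  have hr' : ∀ x, (univ.filter (fun y => (x, y) ∈ S)).card ≤ r := by
    intro x
    refine le_trans (Finset.card_le_card_of_injOn (fun y => (x, y)) ?_ ?_) (hr x)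
    · intro y hy
      simpa using hy
    · intro y _ y' _ h
      exact (Prod.mk.inj h).2
  have hc' : ∀ y, (univ.filter (fun x => (x, y) ∈ S)).card ≤ c := by
    intro y
    refine le_trans (Finset.card_le_card_of_injOn (fun x => (x, y)) ?_ ?_) (hc y)
    · intro x hx
      simpa using hx
    · intro x _ x' _ h
      exact (Prod.mk.inj h).1
  have h1 : ∑ p ∈ S, ∑ q ∈ S, M p.1 q.2 * M q.1 p.2 ≤ ((S.card : ℝ) - 1) * (r * b ^ 2) := by
    refine (main M h0 b r hcol S hS hodd hr').trans (le_of_eq (by ring))
  have h2 : ∑ p ∈ S, ∑ q ∈ S, M p.1 q.2 * M q.1 p.2 ≤ ((S.card : ℝ) - 1) * (c * a ^ 2) := by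
    refine (main' M h0 a c hrow S hS hodd hc').trans (le_of_eq (by ring))
  refine ⟨h1, h2, ?_⟩
  rintro (h | h)
  · refine h1.trans (mul_le_mul_of_nonneg_left ?_ hS1)
    calc (r : ℝ) * b ^ 2 = (r * b) * b := by ring
      _ ≤ a * b := mul_le_mul_of_nonneg_right h hb
  · refine h2.trans (mul_le_mul_of_nonneg_left ?_ hS1)
    calc (c : ℝ) * a ^ 2 = a * (c * a) := by ring
      _ ≤ a * b := mul_le_mul_of_nonneg_left h ha

end

end Pool.Agent.Results.MP_ee21b2_co.FewPerLine
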